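import Pool.Agent.MP_4f4d9f_gt.Db.If

/-! The dimension inequality for two involutions. -/

namespace Pool.Agent.MP_4f4d9f_gt.Db

namespace Atoms

open scoped InnerProductSpace

variable {G H I : Type} [Group G] [Fintype I] [NormedAddCommGroup H] [InnerProductSpace ℂ H]
  [CompleteSpace H]

/-- The projection onto the closure. -/
noncomputable abbrev pr (U : Submodule ℂ H) : H →L[ℂ] H := U.topologicalClosure.starProjection

theorem pr_mem {U : Submodule ℂ H} (hU : IsClosed (U : Set H)) (ξ : H) : pr U ξ ∈ U :=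
  hU.submodule_topologicalClosure_eq.le (Submodule.starProjection_apply_mem _ ξ)

theorem sub_pr (U : Submodule ℂ H) (ξ : H) : ξ - pr U ξ ∈ Uᗮ :=
  U.orthogonal_closure.le (Submodule.sub_starProjection_mem_orthogonal ξ)

theorem pr_self {U : Submodule ℂ H} {ξ : H} (h : ξ ∈ U) : pr U ξ = ξ :=
  Submodule.starProjection_eq_self_iff.2 (U.le_topologicalClosure h)

theorem pr_eq {U : Submodule ℂ H} {ξ η : H} (h : η ∈ U.topologicalClosure) (h' : ξ - η ∈ Uᗮ) :
    pr U ξ = η :=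
  Submodule.eq_starProjection_of_mem_orthogonal h (U.orthogonal_closure.ge h')

theorem gdim_add (e : I → H) {U U' W : Submodule ℂ H} (h : W = U ⊔ U') (ho : U ⟂ U') :
    gdim e W = gdim e U + gdim e U' := by
  subst h
  have h1 : U'.topologicalClosure ≤ Uᗮ :=
    Submodule.topologicalClosure_minimal _ ho.symm U.isClosed_orthogonal
  have h2 : U.topologicalClosure ≤ U'ᗮ :=
    Submodule.topologicalClosure_minimal _ ho U'.isClosed_orthogonal
  unfold gdim
  rw [← Finset.sum_add_distrib]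
  refine Finset.sum_congr rfl fun i _ => ?_
  have a1 : pr U (e i) ∈ U.topologicalClosure := Submodule.starProjection_apply_mem _ _
  have a2 : pr U' (e i) ∈ U'.topologicalClosure := Submodule.starProjection_apply_mem _ _
  have : pr (U ⊔ U') (e i) = pr U (e i) + pr U' (e i) := by
    refine pr_eq (add_mem (Submodule.topologicalClosure_mono le_sup_left a1)
      (Submodule.topologicalClosure_mono le_sup_right a2)) ?_
    rw [← Submodule.inf_orthogonal]
    refine ⟨?_, ?_⟩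
    · rw [← sub_sub]
      exact sub_mem (sub_pr U _) (h1 a2)
    · rw [add_comm, ← sub_sub]
      exact sub_mem (sub_pr U' _) (h2 a1)
  change ‖pr (U ⊔ U') (e i)‖ ^ 2 = ‖pr U (e i)‖ ^ 2 + ‖pr U' (e i)‖ ^ 2
  rw [this, sq, sq, sq]
  exact norm_add_sq_eq_norm_sq_add_norm_sq_of_inner_eq_zero (𝕜 := ℂ) _ _
    (Submodule.inner_right_of_mem_orthogonal a1 (U.orthogonal_closure.ge (h1 a2)))

/-- The parallelogram law. -/
theorem para {π : G →* (H →L[ℂ] H)} {e : I → H} (F : GFrame π e) {A B : Submodule ℂ H}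
    (hA : IsClosed (A : Set H)) (hB : IsClosed (B : Set H)) (iA : ∀ g, ∀ ξ ∈ A, π g ξ ∈ A)
    (iB : ∀ g, ∀ ξ ∈ B, π g ξ ∈ B) :
    gdim e (A ⊓ B) + gdim e (A ⊔ B) = gdim e A + gdim e B := by
  let T : H →L[ℂ] H := pr A - pr B ∘L pr A
  have hT : ∀ ξ, T ξ = pr A ξ - pr B (pr A ξ) := fun _ => rfl
  have h1 := rank_nullity F F T fun g ξ => by
    rw [hT, hT, map_sub, HilbAux.proj_equiv F iA, HilbAux.proj_equiv F iB]
  have h2 : gdim e T.ker = gdim e Aᗮ + gdim e (A ⊓ B) := by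
    refine gdim_add e (le_antisymm (fun w hw => ?_) (sup_le (fun w hw => ?_) fun w hw => ?_))
      ((Submodule.isOrtho_orthogonal_left A).mono_right inf_le_left)
    · rw [← sub_add_cancel w (pr A w)]
      refine Submodule.add_mem_sup (sub_pr A w) ⟨pr_mem hA w, ?_⟩
      rw [sub_eq_zero.1 ((hT w).symm.trans hw)]
      exact pr_mem hB _
    · change T w = 0
      rw [hT, pr_eq (zero_mem _) (by rwa [sub_zero]), map_zero, sub_zero]
    · change T w = 0
      rw [hT, pr_self hw.1, pr_self hw.2, sub_self]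
  have h3 : gdim e (A ⊔ B) = gdim e T.range + gdim e B := by
    refine gdim_add e (le_antisymm (sup_le (fun w hw => ?_) le_sup_right)
      (sup_le ?_ le_sup_right)) ?_
    · rw [← sub_add_cancel w (pr B w)]
      refine Submodule.add_mem_sup ⟨w, ?_⟩ (pr_mem hB w)
      change T w = _
      rw [hT, pr_self hw]
    · rintro _ ⟨w, rfl⟩
      exact sub_mem (Submodule.mem_sup_left (pr_mem hA w)) (Submodule.mem_sup_right (pr_mem hB _))
    · rintro _ ⟨w, rfl⟩
      exact sub_pr B _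
  have h4 := gdim_orthogonal e A
  linarith

omit [CompleteSpace H] in
theorem mem_anti {τ : H →L[ℂ] H} {ξ : H} : ξ ∈ (τ + 1).ker ↔ τ ξ = -ξ :=
  add_eq_zero_iff_eq_neg

theorem inner_sa {τ : H →L[ℂ] H} (h : star τ = τ) (ξ η : H) : ⟪τ ξ, η⟫_ℂ = ⟪ξ, τ η⟫_ℂ := by
  rw [← ContinuousLinearMap.adjoint_inner_right, ← ContinuousLinearMap.star_eq_adjoint, h]

theorem pr_anti {R : Submodule ℂ H} (hR : IsClosed (R : Set H)) {τ : H →L[ℂ] H}
    (h : star τ = τ) (h2 : ∀ ξ, τ (τ ξ) = ξ) (hi : ∀ ξ ∈ R, τ ξ ∈ R) (ξ : H) :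
    pr (R ⊓ (τ + 1).ker) ξ = (2⁻¹ : ℂ) • (pr R ξ - τ (pr R ξ)) := by
  have a1 := pr_mem hR ξ
  refine pr_eq (Submodule.le_topologicalClosure _ (Submodule.smul_mem _ _
    ⟨sub_mem a1 (hi _ a1), mem_anti.2 (by rw [map_sub, h2, neg_sub])⟩)) ?_
  rw [Submodule.mem_orthogonal]
  rintro u ⟨hu, hu'⟩
  have b1 := Submodule.inner_right_of_mem_orthogonal hu (sub_pr R ξ)
  rw [inner_sub_right] at b1
  rw [inner_sub_right, inner_smul_right, inner_sub_right, ← inner_sa h, mem_anti.1 hu',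
    inner_neg_left]
  linear_combination b1

variable {X : Type}

theorem gdim_anti (e : I → H) {q : X → H →L[ℂ] H} (q1 : ∀ x, star (q x) = q x)
    (q3 : ∀ x x' ξ, x ≠ x' → q x (q x' ξ) = 0)
    (q5 : ∀ i, (∀ x, q x (e i) = 0) ∨ ∃ x, q x (e i) = e i)
    {τ : Bool → H →L[ℂ] H} {bar : Bool → X → X} (t1 : ∀ s, star (τ s) = τ s)
    (t2 : ∀ s ξ, τ s (τ s ξ) = ξ) (t5 : ∀ s x, bar s x ≠ x)
    (t6 : ∀ s x ξ, τ s (q x ξ) = q (bar s x) (τ s ξ))
    (t7 : ∀ s ξ, (∀ x, q x ξ = 0) → τ s ξ = -ξ) {R : Submodule ℂ H} (hR : IsClosed (R : Set H))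
    (hq : ∀ x, ∀ ξ ∈ R, q x ξ ∈ R) (hτ : ∀ s, ∀ ξ ∈ R, τ s ξ ∈ R) :
    gdim e (R ⊓ (τ false + 1).ker) = gdim e (R ⊓ (τ true + 1).ker) := by
  refine Finset.sum_congr rfl fun i _ => ?_
  change ‖pr _ (e i)‖ ^ 2 = ‖pr _ (e i)‖ ^ 2
  rw [pr_anti hR (t1 _) (t2 _) (hτ _), pr_anti hR (t1 _) (t2 _) (hτ _)]
  have hc : ∀ x, pr R (q x (e i)) = q x (pr R (e i)) := fun x =>
    starProjection_comm (hq x) (by rw [q1]; exact hq x) _
  rcases q5 i with h | ⟨x, h⟩
  · have h' : ∀ x, q x (pr R (e i)) = 0 := fun x => by rw [← hc, h, map_zero]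
    rw [t7 _ _ h', t7 _ _ h']
  · have h' : q x (pr R (e i)) = pr R (e i) := by rw [← hc, h]
    generalize pr R (e i) = v at h'
    have key : ∀ s, ‖v - τ s v‖ ^ 2 = 2 * ‖v‖ ^ 2 := fun s => by
      have a1 : ⟪v, τ s v⟫_ℂ = 0 := by
        rw [← h', inner_sa (q1 x), t6, q3 _ _ _ (t5 s x).symm, inner_zero_right]
      have a2 : ‖τ s v‖ ^ 2 = ‖v‖ ^ 2 := by
        rw [← inner_self_eq_norm_sq (𝕜 := ℂ), ← inner_self_eq_norm_sq (𝕜 := ℂ), inner_sa (t1 s),
          t2]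
      rw [norm_sub_sq (𝕜 := ℂ), a1, a2, map_zero]
      ring
    rw [norm_smul, norm_smul, mul_pow, mul_pow, key, key]

end Atoms

open Atoms in
open scoped InnerProductSpace in
theorem atoms_stmt : AtomsStmt := by
  intro G H I X _ _ _ _ _ _ π e F q q1 q2 q3 q4 q5 τ bar t1 t2 t3 t4 t5 t6 t7 t8 L hL iL hP
  have an := @gdim_anti H I _ _ _ _ X e q q1 q3 q5 τ bar t1 t2 t5 t6 t7
  refine ⟨?_, by simpa using an (R := ⊤) isClosed_univ (fun _ _ _ => trivial) fun _ _ _ => trivial⟩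
  have cA : ∀ s, IsClosed ((τ s + 1).ker : Set H) := fun s => ContinuousLinearMap.isClosed_ker _
  have iA : ∀ s g, ∀ ξ ∈ (τ s + 1).ker, π g ξ ∈ (τ s + 1).ker := fun s g ξ hξ =>
    Atoms.mem_anti.2 (by rw [t3, Atoms.mem_anti.1 hξ, map_neg])
  set K := L ⊓ (τ false + 1).ker with hK
  let C : X → Submodule ℂ H := fun x => (K.map (q x).toLinearMap).topologicalClosure
  let R : Submodule ℂ H := ⨅ x, (C x).comap (q x).toLinearMap
  have mR : ∀ z, z ∈ R ↔ ∀ x, q x z ∈ C x := fun z => Submodule.mem_iInf _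
  have cR : IsClosed (R : Set H) := by
    rw [Submodule.coe_iInf]
    exact isClosed_iInter fun x =>
      (Submodule.isClosed_topologicalClosure _).preimage (q x).continuous
  have mC : ∀ x, ∀ k ∈ K, q x k ∈ C x := fun x k hk => Submodule.le_topologicalClosure _ ⟨k, hk, rfl⟩
  have KR : K ≤ R := fun k hk => (mR k).2 fun x => mC x k hk
  have tr : ∀ (S : H →L[ℂ] H) x y, (∀ k ∈ K, ∃ k' ∈ K, q x k' = S (q y k)) →
      ∀ z ∈ R, S (q y z) ∈ C x := fun S x y h z hz =>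
    map_mem_closure S.continuous ((mR z).1 hz y) (by
      rintro _ ⟨k, hk, rfl⟩
      exact h k hk)
  have trg : ∀ g y, ∀ z ∈ R, π g (q y z) ∈ C (g • y) := fun g y =>
    tr _ _ _ fun k hk => ⟨π g k, ⟨iL g k hk.1, iA _ g k hk.2⟩, (q4 g y k).symm⟩
  have iR : ∀ g, ∀ z ∈ R, π g z ∈ R := fun g z hz => (mR _).2 fun x => by
    have := trg g (g⁻¹ • x) z hz
    rwa [q4, smul_inv_smul] at this
  have qR : ∀ x, ∀ z ∈ R, q x z ∈ R := fun x z hz => (mR _).2 fun x' => by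
    by_cases h : x' = x
    · rw [h, q2]
      exact (mR z).1 hz x
    · rw [q3 _ _ _ h]
      exact zero_mem _
  have τR : ∀ s, ∀ z ∈ R, τ s z ∈ R := fun s z hz => (mR _).2 fun x => by
    have e1 : ∀ ξ, q x (τ s ξ) = τ s (q (bar s x) ξ) := fun ξ => by rw [t6, t4]
    rw [e1]
    cases s with
    | false =>
      exact tr _ _ _ (fun k hk => ⟨-k, neg_mem hk, by rw [← e1, Atoms.mem_anti.1 hk.2]⟩) z hz
    | true =>
      obtain ⟨g, g1, g2⟩ := t8 (bar true x)
      have := trg g (bar true x) z hz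
      rwa [g1, t4, ← g2] at this
  have key : ∀ z ∈ R, z ∈ (L ⊓ R ⊔ R ⊓ (τ false + 1).ker)ᗮ → z = 0 := by
    intro z hz ho
    rw [← Submodule.inf_orthogonal] at ho
    have h0 : ∀ x, q x z = 0 := fun x => by
      obtain ⟨P, p1, p2, -, p4⟩ := hP x
      have : q x z ∈ (K.map (q x).toLinearMap)ᗮ := by
        rw [Submodule.mem_orthogonal]
        rintro _ ⟨k, hk, rfl⟩
        have a1 : P k ∈ R := (mR _).2 fun x' => by
          rcases p4 x' with h | h <;> rw [h]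
          exacts [mC x' k hk, zero_mem _]
        have a2 := Submodule.inner_right_of_mem_orthogonal (K := L ⊓ R) ⟨p1 k hk.1, a1⟩ ho.1
        have a3 := Submodule.inner_right_of_mem_orthogonal (u := P k - q x k)
          (K := R ⊓ (τ false + 1).ker)
          ⟨sub_mem a1 (qR x k (KR hk)), Atoms.mem_anti.2 (by
            rw [p2, Atoms.mem_anti.1 hk.2, map_neg, map_neg, neg_sub_neg, neg_sub])⟩ ho.2
        rw [inner_sub_left, a2, zero_sub, neg_eq_zero] at a3
        change ⟪q x k, q x z⟫_ℂ = 0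
        rwa [← inner_sa (q1 x), q2]
      exact inner_self_eq_zero.1 (Submodule.inner_right_of_mem_orthogonal ((mR z).1 hz x)
        ((Submodule.orthogonal_closure _).ge this))
    exact inner_self_eq_zero.1 (Submodule.inner_right_of_mem_orthogonal
      (K := R ⊓ (τ false + 1).ker) ⟨hz, Atoms.mem_anti.2 (t7 _ z h0)⟩ ho.2)
  have h1 : gdim e R ≤ gdim e (L ⊓ R ⊔ R ⊓ (τ false + 1).ker) := by
    refine gdim_mono e fun r hr => ?_
    have a1 := Submodule.starProjection_apply_mem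
      (L ⊓ R ⊔ R ⊓ (τ false + 1).ker).topologicalClosure r
    rw [sub_eq_zero.1 (key _ (sub_mem hr (Submodule.topologicalClosure_minimal _
      (sup_le inf_le_right inf_le_left) cR a1)) (sub_pr _ r))]
    exact a1
  have pa := fun s => para F (A := L ⊓ R) (B := R ⊓ (τ s + 1).ker) (hL.inter cR) (cR.inter (cA s))
    (fun g ξ h => ⟨iL g ξ h.1, iR g ξ h.2⟩) fun g ξ h => ⟨iR g ξ h.1, iA s g ξ h.2⟩
  have h2 : gdim e K ≤ gdim e (L ⊓ R ⊓ (R ⊓ (τ false + 1).ker)) :=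
    gdim_mono e fun k hk => Submodule.le_topologicalClosure _ ⟨⟨hk.1, KR hk⟩, KR hk, hk.2⟩
  have h3 : gdim e (L ⊓ R ⊓ (R ⊓ (τ true + 1).ker)) ≤ gdim e (L ⊓ (τ true + 1).ker) :=
    gdim_mono e fun k hk => Submodule.le_topologicalClosure _ ⟨hk.1.1, hk.2.2⟩
  have h4 : gdim e (L ⊓ R ⊔ R ⊓ (τ true + 1).ker) ≤ gdim e R :=
    gdim_mono e ((sup_le inf_le_right inf_le_left).trans (Submodule.le_topologicalClosure _))
  have h5 := an cR qR τR
  linarith [pa false, pa true]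

end Pool.Agent.MP_4f4d9f_gt.Db
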