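import Pool.Agent.MP_4f4d9f_gt.Db.If

/-! The total complex of a forest. -/

namespace Pool.Agent.MP_4f4d9f_gt.Db

open Finsupp

namespace Cone

section Sum

variable {G I J : Type} {t : Fr G J → Fr G J}

theorem prl_thI (c : Ch G (I ⊕ J)) : prl (thI I t c) = -prl c := by
  rw [thI_apply, map_sub, prl_chr, prl_chl, zero_sub]

theorem prr_thI (c : Ch G (I ⊕ J)) : prr (thI I t c) = mapDomain t (prr c) := by
  rw [thI_apply, map_sub, prr_chr, prr_chl, sub_zero]

theorem thI_anti {c : Ch G (I ⊕ J)} : thI I t c = -c ↔ mapDomain t (prr c) = -prr c :=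
  ⟨fun h => by rw [← prr_thI, h, map_neg],
    fun h => sum_ext (by rw [prl_thI, map_neg]) (by rw [prr_thI, h, map_neg])⟩

theorem thI_inv (h : ∀ β, t (t β) = β) (c : Ch G (I ⊕ J)) : thI I t (thI I t c) = c :=
  sum_ext (by rw [prl_thI, prl_thI, neg_neg]) (by
    rw [prr_thI, prr_thI, ← mapDomain_comp, show t ∘ t = id from funext h, mapDomain_id])

theorem thI_eqv [Group G] (h : ∀ (g : G) β, t (g • β) = g • t β) :
    Eqv (rp G (I ⊕ J)) (rp G (I ⊕ J)) (thI I t) := fun g c => by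
  rw [thI_apply, thI_apply, eqv_prl, eqv_prr, map_sub, ← eqv_chl, ← eqv_chr]
  exact congrArg (fun x => chr x - _) (eqv_lmapDomain h g _)

theorem md_neg {B B' : Type} (u : B → B') (c : B →₀ ℤ) : mapDomain u (-c) = -mapDomain u c :=
  map_neg (lmapDomain ℤ ℤ u) c

theorem md_anti {B : Type} {u : B → B} (h : ∀ β, u (u β) = β) (c : B →₀ ℤ) :
    mapDomain u (c - mapDomain u c) = -(c - mapDomain u c) := by
  rw [mapDomain_sub, ← mapDomain_comp, show u ∘ u = id from funext h, mapDomain_id, neg_sub]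

theorem split {B Z : Type} {l : B → Z} {u : B → B} {bar : Z → Z} {S : Z → Prop}
    (hS : ∀ x, S (bar x) ↔ ¬ S x) (hl : ∀ β, l (u β) = bar (l β)) {c : B →₀ ℤ}
    (hc : mapDomain u c = -c) :
    flt (fun β => S (bar (l β))) c - mapDomain u (flt (fun β => S (bar (l β))) c) = c := by
  have h := (loc_lmapDomain (l := l) (l' := l) hl).flt S c
  rw [lmapDomain_apply, lmapDomain_apply, hc, map_neg] at h
  rw [h, sub_neg_eq_add]
  ext β
  rw [Finsupp.add_apply, flt_apply, flt_apply]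
  by_cases h1 : S (l β) <;> simp [h1, hS]

theorem exists_side {Z : Type} {bar : Z → Z} (h1 : ∀ x, bar (bar x) = x) (h2 : ∀ x, bar x ≠ x) :
    ∃ S : Z → Prop, ∀ x, S (bar x) ↔ ¬ S x := by
  obtain ⟨_, -⟩ := exists_wellFoundedLT Z
  refine ⟨fun x => x < bar x, fun x => ?_⟩
  beta_reduce
  rw [h1, not_lt]
  exact ⟨le_of_lt, fun h => lt_of_le_of_ne h (h2 x)⟩

theorem eq_zero_of_neg {B : Type} {c : B →₀ ℤ} (h : c = -c) : c = 0 := by
  ext β
  have := DFunLike.congr_fun h β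
  rw [Finsupp.neg_apply] at this
  rw [Finsupp.zero_apply]
  omega

end Sum

section Tot

variable {H : Type} {I J : ℕ → Type}
  {dI : ∀ j, Ch H (I (j + 1)) →ₗ[ℤ] Ch H (I j)} {dJ : ∀ j, Ch H (J (j + 1)) →ₗ[ℤ] Ch H (J j)}
  {φ : ∀ j, Ch H (J j) →ₗ[ℤ] Ch H (I j)} {t : ∀ j, Fr H (J j) → Fr H (J j)}

/-- The second coordinate in positive degree. -/
noncomputable def R (j : ℕ) : Ch H (Kx I J (j + 1)) →ₗ[ℤ] Ch H (J j) := prr (J := Jm J (j + 1))

/-- The chain with given coordinates in positive degree. -/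
noncomputable def mk (j : ℕ) (a : Ch H (I (j + 1))) (ξ : Ch H (J j)) : Ch H (Kx I J (j + 1)) :=
  chl a + chr (J := Jm J (j + 1)) ξ

theorem prl_mk (j : ℕ) (a : Ch H (I (j + 1))) (ξ : Ch H (J j)) : prl (mk j a ξ) = a := by
  rw [mk, map_add, prl_chl]
  exact add_eq_left.2 (prl_chr (J := Jm J (j + 1)) ξ)

theorem R_mk (j : ℕ) (a : Ch H (I (j + 1))) (ξ : Ch H (J j)) : R j (mk j a ξ) = ξ := by
  rw [mk, map_add, show R j (chl a : Ch H (Kx I J (j + 1))) = 0 from prr_chl a, zero_add]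
  exact prr_chr (J := Jm J (j + 1)) ξ

theorem prl_tot (j : ℕ) (c : Ch H (Kx I J (j + 1))) :
    prl (tot dI dJ φ j c) = dI j (prl c) + φ j (R j c) := by
  rw [tot_apply, map_sub, map_add, prl_chl, prl_chl, prl_chr, sub_zero]
  rfl

theorem prr_tot (j : ℕ) (c : Ch H (Kx I J (j + 1))) :
    prr (tot dI dJ φ j c) = -dm dJ j (prr c) := by
  rw [tot_apply, map_sub, map_add, prr_chl, prr_chl, prr_chr, add_zero, zero_sub]

theorem R_tot (j : ℕ) (c : Ch H (Kx I J (j + 1 + 1))) :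
    R j (tot dI dJ φ (j + 1) c) = -dJ j (R (j + 1) c) := prr_tot (j + 1) c

theorem jm_eq (c c' : Ch H (Jm J 0)) : c = c' := by
  ext β
  exact β.i.elim

theorem ext0 {c c' : Ch H (Kx I J 0)} (h : prl c = prl c') : c = c' := sum_ext h (jm_eq _ _)

theorem ext1 {j : ℕ} {c c' : Ch H (Kx I J (j + 1))} (h : prl c = prl c') (h' : R j c = R j c') :
    c = c' := sum_ext h h'

theorem anti0 (c : Ch H (Kx I J 0)) : th I t 0 c = -c := thI_anti.2 (jm_eq _ _)

theorem anti1 {j : ℕ} {c : Ch H (Kx I J (j + 1))} :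
    th I t (j + 1) c = -c ↔ mapDomain (t j) (R j c) = -R j c := thI_anti

end Tot

variable {H V D : Type} [Group H] {I J : ℕ → Type}
  {dI : ∀ j, Ch H (I (j + 1)) →ₗ[ℤ] Ch H (I j)} {dJ : ∀ j, Ch H (J (j + 1)) →ₗ[ℤ] Ch H (J j)}
  {φ : ∀ j, Ch H (J j) →ₗ[ℤ] Ch H (I j)}

theorem proj2 {K : ℕ → Type} {d : ∀ j, Ch H (K (j + 1)) →ₗ[ℤ] Ch H (K j)}
    {θ : ∀ j, Ch H (K j) →ₗ[ℤ] Ch H (K j)} (h : Invol (fun j => rp H (K j)) d θ) (k : ℕ) :
    Proj2 (antiRep h k) := by
  intro D E _ _ ρD ρE π f hπ hf hs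
  let a : Ch H (K k) →ₗ[ℤ] Anti (θ k) := (LinearMap.id - θ k).codRestrict _ fun c => mem_anti.2 (by
    rw [LinearMap.sub_apply, LinearMap.id_apply, map_sub, h.inv, neg_sub])
  have ha : ∀ c, (a c).1 = c - θ k c := fun _ => rfl
  obtain ⟨ψ, h1, h2⟩ := proj_rp D E ρD ρE π (f ∘ₗ a) hπ (fun g c => by
    rw [LinearMap.comp_apply, LinearMap.comp_apply, ← hf]
    refine congrArg f (Subtype.ext ?_)
    rw [antiRep_val, ha, ha, map_sub, h.eqv_θ]) fun c => hs _
  refine ⟨ψ ∘ₗ (Anti (θ k)).subtype, fun g c => h1 g c.1, fun c => ?_⟩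
  rw [LinearMap.comp_apply, h2, LinearMap.comp_apply, ← map_add]
  refine congrArg f (Subtype.ext ?_)
  rw [ha, Submodule.subtype_apply, mem_anti.1 c.2, sub_neg_eq_add, Submodule.coe_add]

variable [MulAction H V] [MulAction H D] {o : D → V} {lI : ∀ j, I j → V} {lJ : ∀ j, J j → D}
  {bar : D → D} {t : ∀ j, Fr H (J j) → Fr H (J j)}

theorem tot_tot (hG : Good H o lI lJ dI dJ φ) (j : ℕ) (c : Ch H (Kx I J (j + 1 + 1))) :
    tot dI dJ φ j (tot dI dJ φ (j + 1) c) = 0 := by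
  have h : prl (tot dI dJ φ j (tot dI dJ φ (j + 1) c)) = prl (0 : Ch H (Kx I J j)) := by
    rw [prl_tot, prl_tot, R_tot, map_add, hG.resI.d_d, zero_add, hG.chain, map_neg,
      add_neg_cancel, map_zero]
  cases j with
  | zero => exact ext0 h
  | succ j => exact ext1 h (by rw [R_tot, R_tot, map_neg, hG.resJ.d_d, neg_zero, neg_zero, map_zero])

theorem tot_eqv (hG : Good H o lI lJ dI dJ φ) (j : ℕ) :
    Eqv (rp H (Kx I J (j + 1))) (rp H (Kx I J j)) (tot dI dJ φ j) := fun g c => by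
  have hR : ∀ k (c : Ch H (Kx I J (k + 1))), R k (rp H (Kx I J (k + 1)) g c) =
      rp H (J k) g (R k c) := fun k c => eqv_prr (J := Jm J (k + 1)) g c
  have h : prl (tot dI dJ φ j (rp H (Kx I J (j + 1)) g c)) =
      prl (rp H (Kx I J j) g (tot dI dJ φ j c)) := by
    rw [prl_tot, eqv_prl, eqv_prl, prl_tot, hR, hG.resI.eqv, hG.eqv, map_add]
  cases j with
  | zero => exact ext0 h
  | succ j => exact ext1 h (by rw [R_tot, hR, hR, R_tot, hG.resJ.eqv, map_neg])

theorem tot_loc (ho : ∀ (g : H) x, o (g • x) = g • o x) (hG : Good H o lI lJ dI dJ φ) (j : ℕ) :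
    Loc (lb (G := H) (Sum.elim (lI (j + 1)) (o ∘ lJ j)))
      (lb (G := H) (Sum.elim (lI j) (o ∘ lm lJ j))) id (tot dI dJ φ j) := by
  rintro ⟨g, i | x⟩
  · have e1 := prl_inl (J := Jm J (j + 1)) g i 1
    have e2 := prr_inl (J := Jm J (j + 1)) g i 1
    have e : tot dI dJ φ j (single ⟨g, .inl i⟩ 1) = chl (dI j (single ⟨g, i⟩ 1)) :=
      sum_ext (by rw [prl_tot, e1, show R j (single ⟨g, .inl i⟩ 1) = 0 from e2, map_zero, add_zero,
        prl_chl]) (by rw [prr_tot, e2, map_zero, neg_zero, prr_chl])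
    exact fun β hβ => (hG.resI.loc j ⟨g, i⟩).mapDomain (u := fun β => ⟨β.g, .inl β.i⟩)
      (l' := lb (G := H) (Sum.elim (lI j) (o ∘ lm lJ j))) (fun β h => h) β (by
        have := e ▸ hβ
        exact this)
  · have e1 := prl_inr (I := I (j + 1)) (J := Jm J (j + 1)) g x 1
    have e2 := prr_inr (I := I (j + 1)) (J := Jm J (j + 1)) g x 1
    have e : tot dI dJ φ j (single ⟨g, .inr x⟩ 1) = chl (φ j (single ⟨g, x⟩ 1)) -
        chr (dm dJ j (single ⟨g, x⟩ 1)) :=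
      sum_ext (by rw [prl_tot, e1, show R j (single ⟨g, .inr x⟩ 1) = single ⟨g, x⟩ 1 from e2,
        map_zero, zero_add, map_sub, prl_chl, prl_chr, sub_zero])
        (by rw [prr_tot, e2, map_sub, prr_chl, prr_chr, zero_sub])
    have h1 : At (lb (G := H) (Sum.elim (lI j) (o ∘ lm lJ j))) (g • o (lJ j x))
        (chl (φ j (single ⟨g, x⟩ 1))) := (hG.loc j ⟨g, x⟩).mapDomain fun β h => h.trans (ho _ _)
    have h2 : At (lb (G := H) (Sum.elim (lI j) (o ∘ lm lJ j))) (g • o (lJ j x))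
        (chr (dm dJ j (single ⟨g, x⟩ 1))) := by
      cases j with
      | zero =>
        rw [jm_eq (dm dJ 0 _) 0, map_zero]
        exact At.zero _
      | succ j =>
        exact (hG.resJ.loc j ⟨g, x⟩).mapDomain fun β h =>
          (ho _ _).symm.trans ((congrArg o h).trans (ho _ _))
    exact fun β hβ => h1.sub h2 β (by
      have := e ▸ hβ
      exact this)

theorem lab_md (hF : Flip H bar lJ dJ t) (j : ℕ) (c : Ch H (J j)) :
    mapDomain (lb (lJ j)) (mapDomain (t j) c) = mapDomain bar (mapDomain (lb (lJ j)) c) := by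
  rw [← mapDomain_comp, ← mapDomain_comp]
  exact congrArg (mapDomain · c) (funext (hF.lab j))

theorem fill (hF : Flip H bar lJ dJ t) {S : D → Prop} (hS : ∀ x, S (bar x) ↔ ¬ S x) (j : ℕ)
    {ξ : Ch H (J j)} (hξ : mapDomain (t j) ξ = -ξ)
    (h : ∃ y, dJ j y = flt (fun β => S (bar (lb (lJ j) β))) ξ) :
    ∃ η, mapDomain (t (j + 1)) η = -η ∧ dJ j η = ξ := by
  obtain ⟨y, hy⟩ := h
  exact ⟨_, md_anti (hF.inv _) y, by rw [map_sub, hF.comm, hy, split hS (hF.lab j) hξ]⟩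

end Cone

open Cone

theorem tot_stmt : TotStmt := by
  intro H V D _ _ _ I J o lI lJ dI dJ φ ho hG
  refine ⟨tot_tot hG, tot_loc ho hG, fun bar t hF => ⟨tot_eqv hG, fun j => thI_eqv ?_,
    fun j => thI_inv ?_, fun j c hc => ?_⟩⟩
  · cases j with
    | zero => exact fun _ _ => rfl
    | succ j => exact hF.eqv j
  · cases j with
    | zero => exact fun _ => rfl
    | succ j => exact hF.inv j
  · cases j with
    | zero => exact anti0 _
    | succ j => exact anti1.2 (by rw [R_tot, md_neg, ← hF.comm, anti1.1 hc, map_neg])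

theorem cone_stmt : ConeStmt := by
  intro H V D Y _ _ _ _ I J o lI lJ dI dJ φ bar t c hG hF hT h
  obtain ⟨S, hS⟩ := exists_side hT.inv hT.ne
  have hm : ∀ k (a : Ch H (I (k + 1))) (ξ : Ch H (J k)), mapDomain (t k) ξ = -ξ →
      mk k a ξ ∈ Anti (th I t (k + 1)) := fun k a ξ hξ =>
    mem_anti.2 (anti1.2 (by rwa [R_mk]))
  have ha : ∀ k (x : Anti (th I t (k + 1))), mapDomain (t k) (R k x.1) = -R k x.1 := fun k x =>
    anti1.1 (mem_anti.1 x.2)
  have hz : ∀ x : Anti (th I t (0 + 1)), mapDomain bar (mapDomain (lb (lJ 0)) (R 0 x.1)) =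
      -mapDomain (lb (lJ 0)) (R 0 x.1) := fun x => by
    rw [← lab_md hF, ha, md_neg]
  let ε : Anti (th I t 0) →ₗ[ℤ] (Y →₀ ℤ) :=
    lmapDomain ℤ ℤ (c ∘ lb (lI 0)) ∘ₗ prl ∘ₗ (Anti (th I t 0)).subtype
  have hε : ∀ x, ε x = mapDomain (c ∘ lb (lI 0)) (prl x.1) := fun _ => rfl
  refine ⟨ε, anti_eqv h, fun g x => ?_, fun x => ?_, fun k x => Subtype.ext (tot_tot hG k x.1),
    fun y => ?_, fun x hx => ?_, fun k x hx => ?_, proj2 h⟩
  · rw [hε, hε, antiRep_val, eqv_prl]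
    exact eqv_lmapDomain (fun g β => by
      rw [Function.comp_apply, lb_smul, hT.c_eqv, Function.comp_apply]) g _
  · rw [hε, antiD_val, prl_tot, mapDomain_comp, mapDomain_add, hG.resI.ε_d, zero_add, hG.aug,
      ← mapDomain_comp]
    refine eq_zero_of_neg ?_
    rw [← md_neg, ← hz, ← mapDomain_comp (f := bar)]
    exact congrArg (mapDomain · _) (funext fun x => (hT.c_o x).symm)
  · obtain ⟨a, rfl⟩ := mapDomain_surjective (hT.surj.comp hG.resI.surj) y
    exact ⟨⟨chl a, mem_anti.2 (anti0 _)⟩, by rw [hε, prl_chl]⟩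
  · rw [hε, mapDomain_comp] at hx
    obtain ⟨z, hz⟩ := hT.conn _ hx
    obtain ⟨ζ, rfl⟩ := mapDomain_surjective hG.resJ.surj z
    obtain ⟨a, e⟩ := hG.resI.exact_zero (prl x.1 - φ 0 (ζ - mapDomain (t 0) ζ)) (by
      rw [mapDomain_sub, hG.aug, mapDomain_sub, mapDomain_sub, lab_md hF, hz, sub_self])
    refine ⟨⟨_, hm 0 a _ (md_anti (hF.inv 0) ζ)⟩, Subtype.ext (ext0 ?_)⟩
    rw [antiD_val, prl_tot, prl_mk, R_mk, e, sub_add_cancel]
  · have h0 : tot dI dJ φ k x.1 = 0 := congrArg Subtype.val hx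
    have h1 := prl_tot (dI := dI) (dJ := dJ) (φ := φ) k x.1
    rw [h0, map_zero] at h1
    obtain ⟨η, e1, e2⟩ := fill hF hS k (ha k x) (by
      cases k with
      | zero =>
        refine hG.resJ.exact_zero _ ?_
        have h3 : mapDomain (lb (lJ 0)) (R 0 x.1) = 0 := hT.acyc _ (hz x) (by
          rw [← hG.aug, eq_neg_of_add_eq_zero_right h1.symm, md_neg, hG.resI.ε_d, neg_zero])
        have h4 := (loc_lmapDomain (l := lb (G := H) (lJ 0)) (l' := id) (ω := id)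
          (u := lb (lJ 0)) fun _ => rfl).flt (fun y => S (bar y)) (R 0 x.1)
        rw [lmapDomain_apply, lmapDomain_apply, h3, map_zero] at h4
        exact h4
      | succ k =>
        refine hG.resJ.exact_succ k _ ?_
        have h2 := R_tot (dI := dI) (dJ := dJ) (φ := φ) k x.1
        rw [h0, map_zero] at h2
        have h4 := (hG.resJ.loc k).flt (fun y => S (bar y)) (R (k + 1) x.1)
        rw [neg_eq_zero.1 h2.symm, map_zero] at h4
        exact h4)
    obtain ⟨a, e⟩ := hG.resI.exact_succ k (prl x.1 + φ (k + 1) η) (by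
      rw [map_add, hG.chain, e2]
      exact h1.symm)
    refine ⟨⟨_, hm (k + 1) a (-η) ((md_neg _ _).trans (congrArg Neg.neg e1))⟩,
      Subtype.ext (ext1 ?_ ?_)⟩
    · rw [antiD_val, prl_tot, prl_mk, R_mk, e, map_neg, add_neg_cancel_right]
    · rw [antiD_val, R_tot, R_mk, map_neg, neg_neg, e2]

end Pool.Agent.MP_4f4d9f_gt.Db
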