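import Pool.Agent.MP_4f4d9f_gt.Sg.Defs

namespace Pool.Agent.MP_4f4d9f_gt.Db

open Sg

/-- Type `FP_m`: the trivial module `ℤ` has a projective resolution over `ℤK` whose terms of
degree at most `m` are finitely generated. -/
def FP (K : Type) [Group K] (m : ℕ) : Prop :=
  ∃ P : CategoryTheory.ProjectiveResolution
      (ModuleCat.of (MonoidAlgebra ℤ K) (Representation.trivial ℤ K ℤ).asModule),
    ∀ j ≤ m, Module.Finite (MonoidAlgebra ℤ K) (P.complex.X j)

/-- The relations of the reflection group at a vertex `v`: the relations of the stabiliser `G_v`,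
`s_w ^ 2 = 1` for each neighbour `w` of `v`, and `a s_w a⁻¹ = s_{a w}` for `a ∈ G_v`. -/
def reflRel (G : Type) [Group G] {V : Type} [MulAction G V] (T : SimpleGraph V) (v : V) :
    Set (FreeGroup (MulAction.stabilizer G v ⊕ T.neighborSet v)) :=
  {r | (∃ a b, r = .of (.inl a) * .of (.inl b) * (.of (.inl (a * b)))⁻¹) ∨
    (∃ w, r = .of (.inr w) * .of (.inr w)) ∨
    ∃ a w w', a.1 • w.1 = w'.1 ∧
      r = .of (.inl a) * .of (.inr w) * (.of (.inl a))⁻¹ * (.of (.inr w'))⁻¹}

/-- The reflection group at `v`: the vertex group with one reflection for each edge at `v`. -/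
abbrev Refl (G : Type) [Group G] {V : Type} [MulAction G V] (T : SimpleGraph V) (v : V) : Type :=
  PresentedGroup (reflRel G T v)

/-- Groups with an `n`-dimensional hierarchy, with finiteness conditions for the degree `m`. -/
inductive Hier (n m : ℕ) : (G : Type) → [Group G] → Prop
  /-- Deck groups of contractible `n`-manifolds that are residually (locally indicable and
  amenable). -/
  | leaf {G : Type} [Group G] {C : Set (EuclideanSpace ℝ (Fin n))} (hC : Convex ℝ C)
      (hC' : (interior C).Nonempty) {M X : Type} [TopologicalSpace M] [T2Space M]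
      [ChartedSpace C M] [TopologicalSpace X] [ContractibleSpace X] [MulAction G X]
      [ContinuousConstSMul G X] {p : X → M} (hp : IsQuotientCoveringMap p G) (h₁ : ResLIA G)
      (h₂ : FinRes G m) : Hier n m G
  /-- Overgroups of finite index. -/
  | index {G H : Type} [Group G] [Group H] (j : H →* G) (hj : Function.Injective j)
      (hf : j.range.FiniteIndex) (h : Hier n m H) : Hier n m G
  /-- Directed unions. -/
  | union {G : Type} [Group G] (K : Finset G → Subgroup G) (hK : ∀ S, ∀ g ∈ S, g ∈ K S)
      (h : ∀ S, Hier n m (K S)) : Hier n m G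
  /-- Cocompact actions on trees without inversion, when the reflection groups at all vertices
  have a hierarchy. -/
  | tree {G V : Type} [Group G] [MulAction G V] (T : SimpleGraph V) (hT : T.IsTree)
      (adj : ∀ (g : G) v w, T.Adj v w → T.Adj (g • v) (g • w))
      (inv : ∀ (g : G) v w, T.Adj v w → g • v = w → g • w ≠ v)
      (S : Finset V) (finV : ∀ v : V, ∃ g : G, g • v ∈ S)
      (finE : ∀ v w, T.Adj v w → ∃ g : G, g • v ∈ S ∧ g • w ∈ S)
      (fpV : ∀ v : V, FP (MulAction.stabilizer G v) (m + 1))
      (fpE : ∀ v w, T.Adj v w →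
        FP (MulAction.stabilizer G v ⊓ MulAction.stabilizer G w : Subgroup G) m)
      (h : ∀ v, Hier n m (Refl G T v)) : Hier n m G

end Pool.Agent.MP_4f4d9f_gt.Db
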