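import Pool.Agent.MP_4f4d9f_gt.Db.If

/-! Tensor products and row vectors. -/

open scoped Matrix

namespace Pool.Agent.MP_4f4d9f_gt.Db

namespace Dict

open Finsupp

variable {H N : Type} [Group H] [Ring N] (ι : H →* N) {K : ℕ → Type}
  {d : ∀ j, Ch H (K (j + 1)) →ₗ[ℤ] Ch H (K j)} {θ : ∀ j, Ch H (K j) →ₗ[ℤ] Ch H (K j)}
  (h : Invol (fun j => rp H (K j)) d θ)

/-- Linear maps on row vectors agree if they agree on coordinates of chains. -/
theorem row_ext {I M : Type} [Fintype I] [AddCommGroup M] [Module N M]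
    {f g : (I → N) →ₗ[N] M} (e : ∀ c : Ch H I, f (co ι c) = g (co ι c)) : f = g := by
  classical
  refine LinearMap.pi_ext' fun i => LinearMap.ext_ring ?_
  have h1 := e (single ⟨1, i⟩ 1)
  rw [co_single, map_one] at h1
  convert h1 <;> simp

/-- The map `1 - θ` into the eigenspace. -/
noncomputable def asym (j : ℕ) : Ch H (K j) →ₗ[ℤ] Anti (θ j) :=
  (LinearMap.id - θ j).codRestrict _ fun c => mem_anti.2 (by
    rw [LinearMap.sub_apply, LinearMap.id_apply, map_sub, h.inv, neg_sub])

theorem asym_val (j : ℕ) (c : Ch H (K j)) : (asym h j c).1 = c - θ j c := rfl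

theorem asym_rp (j : ℕ) (g : H) (c : Ch H (K j)) :
    asym h j (rp H (K j) g c) = antiRep h j g (asym h j c) :=
  Subtype.ext (by rw [antiRep_val, asym_val, asym_val, map_sub, h.eqv_θ j g c])

/-- The coordinates of an element of the tensor product. -/
noncomputable def toRow (j : ℕ) : Tens ι (antiRep h j) →ₗ[N] (K j → N) :=
  Tens.lift ι (co ι ∘ₗ (Anti (θ j)).subtype) fun g c => co_rp ι g c.1

theorem toRow_of (j : ℕ) (c : Anti (θ j)) : toRow ι h j (Tens.of ι _ c) = co ι c.1 :=
  Tens.lift_of ι _ _ c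

/-- The antisymmetrisation of a row vector. -/
noncomputable def ofRow (j : ℕ) [Fintype (K j)] : (K j → N) →ₗ[N] Tens ι (antiRep h j) :=
  Fintype.linearCombination N fun i => Tens.of ι _ (asym h j (single ⟨1, i⟩ 1))

theorem ofRow_co (j : ℕ) [Fintype (K j)] (c : Ch H (K j)) :
    ofRow ι h j (co ι c) = Tens.of ι _ (asym h j c) := by
  classical
  induction c using ch_induction with
  | h0 => simp
  | hadd x y hx hy => simp only [map_add, hx, hy]
  | hneg x hx => simp only [map_neg, hx]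
  | h1 β =>
    conv_rhs => rw [← β.smul_one, ← permRep_single, asym_rp, Tens.of_rep]
    rw [co_single, ofRow]
    convert Fintype.linearCombination_apply_single N _ β.i (ι β.g)

theorem ofRow_toRow (j : ℕ) [Fintype (K j)] (x : Tens ι (antiRep h j)) :
    ofRow ι h j (toRow ι h j x) = x + x :=
  LinearMap.congr_fun (f := ofRow ι h j ∘ₗ toRow ι h j) (g := LinearMap.id + LinearMap.id)
    (Tens.hom_ext ι fun c => by
      rw [LinearMap.comp_apply, toRow_of, ofRow_co, LinearMap.add_apply, LinearMap.id_apply,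
        ← map_add]
      exact congrArg _ (Subtype.ext (by
        rw [asym_val, mem_anti.1 c.2, sub_neg_eq_add]
        rfl))) x

theorem toRow_ofRow (j : ℕ) [Fintype (K j)] (z : K j → N) :
    toRow ι h j (ofRow ι h j z) = z - z ᵥ* mat ι (θ j) :=
  LinearMap.congr_fun (f := toRow ι h j ∘ₗ ofRow ι h j)
    (g := LinearMap.id - (mat ι (θ j)).vecMulLinear) (row_ext ι fun c => by
      rw [LinearMap.comp_apply, ofRow_co, toRow_of, asym_val, map_sub, co_map ι (h.eqv_θ j)]
      rfl) z

theorem toRow_anti (j : ℕ) [Fintype (K j)] (x : Tens ι (antiRep h j)) :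
    toRow ι h j x ᵥ* mat ι (θ j) = -toRow ι h j x :=
  LinearMap.congr_fun (f := (mat ι (θ j)).vecMulLinear ∘ₗ toRow ι h j) (g := -toRow ι h j)
    (Tens.hom_ext ι fun c => by
      rw [LinearMap.comp_apply, LinearMap.neg_apply, toRow_of, Matrix.vecMulLinear_apply,
        ← co_map ι (h.eqv_θ j), mem_anti.1 c.2, map_neg]) x

theorem toRow_map (j : ℕ) [Fintype (K (j + 1))] (x : Tens ι (antiRep h (j + 1))) :
    toRow ι h j (Tens.map ι (antiD h j) (anti_eqv h j) x) =
      toRow ι h (j + 1) x ᵥ* mat ι (d j) :=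
  LinearMap.congr_fun (f := toRow ι h j ∘ₗ Tens.map ι (antiD h j) (anti_eqv h j))
    (g := (mat ι (d j)).vecMulLinear ∘ₗ toRow ι h (j + 1))
    (Tens.hom_ext ι fun c => by
      rw [LinearMap.comp_apply, LinearMap.comp_apply,
        Tens.map_of ι (antiD h j) (anti_eqv h j), toRow_of, toRow_of,
        Matrix.vecMulLinear_apply, ← co_map ι (h.eqv_d j), antiD_val]) x

theorem four {M : Type} [AddCommGroup M] [Module N M] (s : N) (x : M) :
    (s * 2 * 2) • x = s • (x + x + (x + x)) := by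
  rw [mul_smul, mul_smul, two_smul, two_smul]

end Dict

open Dict in
theorem dict_stmt : DictStmt := by
  intro H N _ _ ι h2 K d θ h k _ _ _
  refine ⟨⟨fun ht z hz hz' => ?_, fun hm x hx => ?_⟩, fun w => ?_, fun w hw => ?_⟩
  · have e1 : toRow ι h (k + 1) (ofRow ι h (k + 1) z) = z + z := by
      rw [toRow_ofRow, hz', sub_neg_eq_add]
    obtain ⟨s, hs, w, hw⟩ := ht (ofRow ι h (k + 1) z + ofRow ι h (k + 1) z) (by
      rw [map_add, ← ofRow_toRow, toRow_map, e1, Matrix.add_vecMul, hz, add_zero, map_zero])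
    refine ⟨s * 2 * 2, (hs.mul h2).mul h2, toRow ι h (k + 2) w, toRow_anti ι h (k + 2) w, ?_⟩
    rw [← toRow_map ι h (k + 1), hw, map_smul, map_add, e1, four]
  · obtain ⟨s, hs, w, hw, hw'⟩ := hm (toRow ι h (k + 1) x)
      (by rw [← toRow_map, hx, map_zero]) (toRow_anti ι h (k + 1) x)
    refine ⟨s * 2 * 2, (hs.mul h2).mul h2, ofRow ι h (k + 2) w + ofRow ι h (k + 2) w, ?_⟩
    rw [map_add, ← ofRow_toRow, toRow_map ι h (k + 1), toRow_ofRow, hw, sub_neg_eq_add,
      Matrix.add_vecMul, hw', map_add, map_smul, ofRow_toRow, four, smul_add s (x + x)]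
  · classical
    rw [Matrix.vecMul_vecMul, ← mat_comp ι _ (h.eqv_θ (k + 2)),
      show θ (k + 2) ∘ₗ θ (k + 2) = LinearMap.id from LinearMap.ext (h.inv (k + 2)), mat_id,
      Matrix.vecMul_one]
  · have e := toRow_anti ι h (k + 1)
      (Tens.map ι (antiD h (k + 1)) (anti_eqv h (k + 1)) (ofRow ι h (k + 2) w))
    rw [toRow_map ι h (k + 1), toRow_ofRow, hw, sub_neg_eq_add, Matrix.add_vecMul,
      Matrix.add_vecMul, neg_add] at e
    funext i
    apply h2
    have e' := congrFun e i
    simp only [Pi.add_apply] at e'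
    simp only [two_mul]
    exact e'

end Pool.Agent.MP_4f4d9f_gt.Db
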