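import Pool.Agent.MP_4f4d9f_gt.Db.If

/-! The group generated by the reflections in all darts. -/

namespace Pool.Agent.MP_4f4d9f_gt.Db

open Finsupp SemidirectProduct

namespace Gamma

/-- The free product of groups of order two. -/
def W (D : Type) : Type :=
  PresentedGroup (Set.range fun x : D => FreeGroup.of x * FreeGroup.of x)

instance (D : Type) : Group (W D) := inferInstanceAs (Group (PresentedGroup _))

variable {G V D X K : Type} [Group G] [MulAction G V] [MulAction G D] [MulAction G X] [Group K]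

/-- The generators. -/
def s (x : D) : W D := PresentedGroup.of x

theorem s_sq (x : D) : s x * s x = 1 := PresentedGroup.one_of_mem ⟨x, rfl⟩

theorem s_inv (x : D) : (s x)⁻¹ = s x := inv_eq_of_mul_eq_one_right (s_sq x)

/-- The universal property. -/
def lift (f : D → K) (hf : ∀ x, f x * f x = 1) : W D →* K :=
  PresentedGroup.toGroup (f := f) (by
    rintro _ ⟨x, rfl⟩
    simpa using hf x)

theorem lift_s (f : D → K) (hf : ∀ x, f x * f x = 1) (x : D) : lift f hf (s x) = f x :=
  PresentedGroup.toGroup.of _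

theorem hom_ext {f g : W D →* K} (h : ∀ x, f (s x) = g (s x)) (w : W D) : f w = g w :=
  DFunLike.congr_fun (PresentedGroup.ext h : f = g) w

theorem s_ne (x : D) : s x ≠ 1 := fun h => by
  have := lift_s (fun _ : D => (-1 : ℤˣ)) (fun _ => by simp) x
  rw [h, map_one] at this
  exact absurd this (by decide)

/-- The action of `g` on the free product. -/
def ac (g : G) : W D →* W D := lift (fun x => s (g • x)) fun _ => s_sq _

theorem ac_s (g : G) (x : D) : ac g (s x) = s (g • x) := lift_s _ _ x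

instance : MulDistribMulAction G (W D) where
  smul g w := ac g w
  one_smul := hom_ext (f := ac (1 : G)) (g := MonoidHom.id _) fun x => by
    rw [ac_s, one_smul]
    rfl
  mul_smul g h := hom_ext (f := ac (g * h)) (g := (ac g).comp (ac h)) fun x => by
    rw [MonoidHom.comp_apply, ac_s, ac_s, ac_s, mul_smul]
  smul_mul g := map_mul (ac g)
  smul_one g := map_one (ac g)

theorem smul_s (g : G) (x : D) : g • s x = s (g • x) := ac_s g x

/-- The semidirect product. -/
abbrev H (G D : Type) [Group G] [MulAction G D] : Type :=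
  W D ⋊[MulDistribMulAction.toMulAut G (W D)] G

/-- The induced set. -/
@[ext] structure P (D X : Type) where
  w : W D
  x : X

instance : MulAction (H G D) (P D X) where
  smul h p := ⟨h.left * h.right • p.w, h.right • p.x⟩
  one_smul p := P.ext (show 1 * (1 : G) • p.w = p.w by simp) (one_smul G p.x)
  mul_smul h k p := P.ext (show h.left * h.right • k.left * (h.right * k.right) • p.w =
    h.left * h.right • (k.left * k.right • p.w) by rw [smul_mul', mul_smul, mul_assoc])
    (mul_smul h.right k.right p.x)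

theorem smul_def (h : H G D) (p : P D X) :
    h • p = ⟨h.left * h.right • p.w, h.right • p.x⟩ := rfl

theorem indSet : IndSet (inr : G →* H G D) fun x : X => (⟨1, x⟩ : P D X) where
  eqv g y := by simp [smul_def]
  surj p := ⟨inl p.w, p.x, by simp [smul_def]⟩
  inj h y y₂ e := by
    rw [smul_def, P.mk.injEq, smul_one, mul_one] at e
    exact ⟨h.right, SemidirectProduct.ext e.1 rfl, e.2⟩

/-- The reflection in a dart. -/
def sig (G : Type) [Group G] [MulAction G D] (p : P D D) : H G D := inl (p.w * s p.x * p.w⁻¹)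

theorem sig_smul (p : P D D) : sig G p • p = ⟨p.w * s p.x, p.x⟩ := by simp [sig, smul_def]

theorem sig_eqv (h : H G D) (p : P D D) : sig G (h • p) = h * sig G p * h⁻¹ := by
  refine SemidirectProduct.ext ?_ (by simp [sig])
  simp [sig, smul_def, smul_s, mul_assoc]

/-- The subgroup of the reflections at a vertex. -/
def Wv (o : D → V) (v : V) : Subgroup (W D) := Subgroup.closure (s '' {x | o x = v})

omit [MulAction G V] in
theorem s_mem {o : D → V} {v : V} {x : D} (h : o x = v) : s x ∈ Wv o v :=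
  Subgroup.subset_closure ⟨x, h, rfl⟩

theorem Wv_ind {o : D → V} {v : V} {p : W D → Prop} (h1 : p 1)
    (h : ∀ w x, o x = v → p w → p (w * s x)) {w : W D} (hw : w ∈ Wv o v) : p w := by
  induction hw using Subgroup.closure_induction_right with
  | one => exact h1
  | mul_right w _ y hy ih =>
    obtain ⟨x, hx, rfl⟩ := hy
    exact h w x hx ih
  | mul_inv_cancel w _ y hy ih =>
    obtain ⟨x, hx, rfl⟩ := hy
    rw [s_inv]
    exact h w x hx ih

theorem W_ind {p : W D → Prop} (h1 : p 1) (h : ∀ w x, p w → p (w * s x)) (w : W D) : p w :=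
  Wv_ind (o := fun _ => ()) (v := ()) h1 (fun w x _ => h w x)
    (PresentedGroup.generated_by _ _ (fun _ => s_mem rfl) w)

/-- The potential used to show that the graph has no cycles. -/
theorem exists_del : ∃ δ : W D → P D D →₀ ℤ,
    ∀ w x, δ w - δ (w * s x) = single ⟨w, x⟩ 1 - single ⟨w * s x, x⟩ 1 := by
  let f : D → W D × (P D D →₀ ℤ) → W D × (P D D →₀ ℤ) := fun x q =>
    (q.1 * s x, q.2 - (single ⟨q.1, x⟩ 1 - single ⟨q.1 * s x, x⟩ 1))
  have hf : ∀ x, Function.Involutive (f x) := fun x q => by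
    simp only [f, mul_assoc, s_sq, mul_one]
    exact Prod.ext rfl (by dsimp only; abel)
  let θ := lift (fun x => (hf x).toPerm _) fun x => Equiv.ext (hf x)
  have h1 : ∀ w x, θ (w * s x)⁻¹ (1, 0) = f x (θ w⁻¹ (1, 0)) := fun w x => by
    rw [mul_inv_rev, s_inv, map_mul, lift_s]
    rfl
  have h2 : ∀ w, (θ w⁻¹ (1, 0)).1 = w := W_ind (by simp) fun w x ih => by
    rw [h1]
    exact congrArg (· * s x) ih
  refine ⟨fun w => (θ w⁻¹ (1, 0)).2, fun w x => ?_⟩
  simp only [h1, f, h2, sub_sub_cancel]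

variable {o : D → V} (ho : ∀ (g : G) x, o (g • x) = g • o x)

include ho in
theorem smul_mem (g : G) {v : V} {w : W D} (hw : w ∈ Wv o v) : g • w ∈ Wv o (g • v) :=
  Wv_ind (p := fun w => g • w ∈ Wv o (g • v)) (by simp) (fun w x hx ih => by
    rw [smul_mul', smul_s]
    exact mul_mem ih (s_mem (by rw [ho, hx]))) hw

/-- Vertices in the same component. -/
def rl (o : D → V) : Setoid (P D V) where
  r p q := p.x = q.x ∧ p.w⁻¹ * q.w ∈ Wv o p.x
  iseqv := ⟨fun p => ⟨rfl, by simp⟩, fun h => ⟨h.1.symm, by simpa [h.1] using inv_mem h.2⟩,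
    fun h h' => ⟨h.1.trans h'.1, by
      have := mul_mem h.2 (h.1 ▸ h'.2)
      rwa [mul_assoc, mul_inv_cancel_left] at this⟩⟩

/-- The components. -/
def Y (_ : ∀ (g : G) x, o (g • x) = g • o x) : Type := Quotient (rl o)

/-- The component of a vertex. -/
def cl (p : P D V) : Y ho := Quotient.mk (rl o) p

theorem cl_eq {p q : P D V} : cl ho p = cl ho q ↔ p.x = q.x ∧ p.w⁻¹ * q.w ∈ Wv o p.x :=
  Quotient.eq

instance : MulAction (H G D) (Y ho) where
  smul h := Quotient.map (h • ·) fun p q e => ⟨congrArg (h.right • ·) e.1, by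
    simpa [smul_def, mul_assoc] using smul_mem ho h.right e.2⟩
  one_smul y := Quotient.inductionOn y fun p => congrArg (cl ho) (one_smul _ p)
  mul_smul h k y := Quotient.inductionOn y fun p => congrArg (cl ho) (mul_smul h k p)

theorem forest : Forest (H G D) (fun p : P D D => (⟨p.w, o p.x⟩ : P D V))
    (fun p => ⟨p.w * s p.x, p.x⟩) (cl ho) where
  c_eqv _ _ := rfl
  inv p := by simp [mul_assoc, s_sq]
  ne p e := s_ne p.x (mul_eq_left.1 (congrArg P.w e))
  surj := Quotient.mk_surjective
  c_o p := (cl_eq ho).2 ⟨rfl, by simpa using s_mem rfl⟩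
  conn a ha := by
    let R := LinearMap.range (lmapDomain ℤ ℤ (fun p : P D D => (⟨p.w, o p.x⟩ : P D V)) -
      lmapDomain ℤ ℤ (fun p : P D D => (⟨p.w, o p.x⟩ : P D V)) ∘ₗ
        lmapDomain ℤ ℤ fun p : P D D => (⟨p.w * s p.x, p.x⟩ : P D D))
    have h1 : ∀ w v, ∀ u ∈ Wv o v, single ⟨w, v⟩ 1 - single ⟨w * u, v⟩ 1 ∈ R := fun w v u hu =>
      Wv_ind (p := fun u => single ⟨w, v⟩ 1 - single ⟨w * u, v⟩ 1 ∈ R) (by simp)
        (fun u x hx ih => by
          rw [← sub_add_sub_cancel _ (single ⟨w * u, v⟩ 1)]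
          exact add_mem ih ⟨single ⟨w * u, x⟩ 1, by simp [hx, mul_assoc]⟩) hu
    obtain ⟨out, hout⟩ : ∃ out : Y ho → P D V, ∀ y, cl ho (out y) = y :=
      ⟨Quotient.out, Quotient.out_eq⟩
    have h2 : ∀ a : P D V →₀ ℤ, a - lmapDomain ℤ ℤ out (lmapDomain ℤ ℤ (cl ho) a) ∈ R := by
      intro a
      induction a using ch_induction with
      | h0 => simp
      | hadd x y hx hy =>
        rw [map_add, map_add, add_sub_add_comm]
        exact add_mem hx hy
      | hneg x hx =>
        rw [map_neg, map_neg, ← neg_sub']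
        exact neg_mem hx
      | h1 p =>
        rw [lmapDomain_apply, lmapDomain_apply, mapDomain_single, mapDomain_single]
        have e := (cl_eq ho).1 (hout (cl ho p)).symm
        have := h1 p.w p.x _ e.2
        rwa [mul_inv_cancel_left, show (⟨_, p.x⟩ : P D V) = out (cl ho p) from
          P.ext rfl e.1] at this
    have := h2 a
    rwa [lmapDomain_apply _ _ (cl ho), ha, map_zero, sub_zero] at this
  acyc z h1 h2 := by
    obtain ⟨δ, hδ⟩ := exists_del (D := D)
    have h3 := LinearMap.congr_fun (ch_ext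
      (f := linearCombination ℤ (fun p : P D V => δ p.w) ∘ₗ
        (lmapDomain ℤ ℤ (fun p : P D D => (⟨p.w, o p.x⟩ : P D V)) ∘ₗ (LinearMap.id -
          lmapDomain ℤ ℤ fun p : P D D => (⟨p.w * s p.x, p.x⟩ : P D D))))
      (g := LinearMap.id - lmapDomain ℤ ℤ fun p : P D D => (⟨p.w * s p.x, p.x⟩ : P D D))
      fun p => by simp [hδ]) z
    simp only [LinearMap.comp_apply, LinearMap.sub_apply, LinearMap.id_apply, lmapDomain_apply,
      h1, sub_neg_eq_add, mapDomain_add, h2, add_zero, map_zero] at h3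
    ext p
    have := DFunLike.congr_fun h3 p
    simp only [Finsupp.add_apply, Finsupp.zero_apply] at this ⊢
    omega

theorem mem_stab {v : V} {h : H G D} : h ∈ MulAction.stabilizer (H G D) (cl ho ⟨1, v⟩) ↔
    h.right • v = v ∧ h.left ∈ Wv o v := by
  refine (eq_comm.trans (cl_eq ho (p := ⟨1, v⟩) (q := h • ⟨1, v⟩))).trans ?_
  simp [smul_def, eq_comm]

theorem refl {T : SimpleGraph V} {bar : D → D} (hD : Darts G T o bar) (v : V) :
    ∃ Φ : Refl G T v →* H G D, Function.Injective Φ ∧
      Φ.range = MulAction.stabilizer (H G D) (cl ho ⟨1, v⟩) := by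
  classical
  choose dt d1 d2 using fun w : T.neighborSet v => hD.ex v w w.2
  let nb : ∀ x, o x = v → T.neighborSet v := fun x h => ⟨o (bar x), h ▸ hD.adj x⟩
  have hnb : ∀ x h, dt (nb x h) = x := fun x h => hD.ext _ _ ((d1 _).trans h.symm) (d2 _)
  let Φ : Refl G T v →* H G D := PresentedGroup.toGroup
    (f := Sum.elim (fun a => inr a.1) fun w => inl (s (dt w))) (by
      rintro _ (⟨a, b, rfl⟩ | ⟨w, rfl⟩ | ⟨a, w, w', e, rfl⟩)
      · simp
      · simpa using congrArg (inl : W D →* H G D) (s_sq (dt w))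
      · have : a.1 • dt w = dt w' := hD.ext _ _ (by rw [ho, d1, d1]; exact a.2)
          (by rw [hD.bar_eqv, ho, d2, d2, e])
        refine SemidirectProduct.ext ?_ (by simp)
        simp [smul_s, this])
  have p1 : ∀ a, Φ (.of (.inl a)) = inr a.1 := fun a => PresentedGroup.toGroup.of _
  have p2 : ∀ w, Φ (.of (.inr w)) = inl (s (dt w)) := fun w => PresentedGroup.toGroup.of _
  have hm : ∀ r, Φ r ∈ MulAction.stabilizer (H G D) (cl ho ⟨1, v⟩) :=
    PresentedGroup.generated_by _ ((MulAction.stabilizer _ _).comap Φ) (by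
      rintro (a | w) <;> rw [Subgroup.mem_comap, mem_stab]
      · rw [p1]
        exact ⟨a.2, one_mem _⟩
      · rw [p2]
        exact ⟨one_smul _ _, s_mem (d1 w)⟩)
  let al : MulAction.stabilizer G v →* Refl G T v := MonoidHom.mk' (fun a => .of (.inl a))
    fun a b => (mul_inv_eq_one.1 (PresentedGroup.one_of_mem (Or.inl ⟨a, b, rfl⟩))).symm
  let Ψ : W D →* Refl G T v := lift (fun x => if h : o x = v then .of (.inr (nb x h)) else 1)
    fun x => by
      split_ifs with h
      · exact PresentedGroup.one_of_mem (Or.inr (Or.inl ⟨_, rfl⟩))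
      · exact mul_one _
  have q1 : ∀ (a : MulAction.stabilizer G v) w, Ψ (a.1 • w) = al a * Ψ w * (al a)⁻¹ := fun a =>
    hom_ext (f := Ψ.comp (ac a.1)) (g := (MulAut.conj (al a)).toMonoidHom.comp Ψ) fun x => by
      show Ψ (ac a.1 (s x)) = al a * Ψ (s x) * (al a)⁻¹
      rw [ac_s, lift_s, lift_s]
      have e : o (a.1 • x) = v ↔ o x = v := by
        rw [ho, ← smul_left_cancel_iff a.1 (x := o x), show a.1 • v = v from a.2]
      by_cases h : o x = v
      · rw [dif_pos h, dif_pos (e.2 h)]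
        exact (mul_inv_eq_one.1 (PresentedGroup.one_of_mem (Or.inr (Or.inr ⟨a, nb x h, nb _ (e.2 h),
          by simp only [nb, hD.bar_eqv, ho], rfl⟩)))).symm
      · rw [dif_neg h, dif_neg fun h' => h (e.1 h'), mul_one, mul_inv_cancel]
  let Λ : MulAction.stabilizer (H G D) (cl ho ⟨1, v⟩) →* Refl G T v := MonoidHom.mk'
    (fun h => Ψ h.1.left * al ⟨h.1.right, ((mem_stab ho).1 h.2).1⟩) fun h k => by
      have := q1 ⟨h.1.right, ((mem_stab ho).1 h.2).1⟩ k.1.left
      rw [eq_mul_inv_iff_mul_eq] at this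
      rw [mul_assoc, ← mul_assoc (al _), ← this, mul_assoc, ← map_mul, ← mul_assoc, ← map_mul]
      rfl
  have q2 : Λ.comp (Φ.codRestrict _ hm) = MonoidHom.id _ := PresentedGroup.ext (by
    rintro (a | w)
    · show Ψ (Φ (.of (.inl a))).left * al ⟨(Φ (.of (.inl a))).right, _⟩ = _
      simp only [p1, left_inr, right_inr, map_one, one_mul]
      rfl
    · show Ψ (Φ (.of (.inr w))).left * al ⟨(Φ (.of (.inr w))).right, _⟩ = _
      simp only [p2, left_inl, right_inl]
      rw [show (⟨1, _⟩ : MulAction.stabilizer G v) = 1 from rfl, map_one, mul_one, lift_s,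
        dif_pos (d1 w)]
      exact congrArg (fun w => PresentedGroup.of (Sum.inr w)) (Subtype.ext (d2 w)))
  refine ⟨Φ, (injective_iff_map_eq_one Φ).2 fun r hr => ?_, le_antisymm ?_ fun h hh => ?_⟩
  · have := DFunLike.congr_fun q2 r
    rw [MonoidHom.comp_apply, show Φ.codRestrict _ hm r = 1 from Subtype.ext hr, map_one] at this
    exact this.symm
  · rintro _ ⟨r, rfl⟩
    exact hm r
  · obtain ⟨h1, h2⟩ := (mem_stab ho).1 hh
    rw [← inl_left_mul_inr_right h]
    refine mul_mem (Wv_ind (p := fun w => (inl w : H G D) ∈ Φ.range) (by simp)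
      (fun w x hx ih => ?_) h2) ⟨_, p1 ⟨_, h1⟩⟩
    rw [map_mul]
    exact mul_mem ih ⟨_, (p2 (nb x hx)).trans (by rw [hnb x hx])⟩

end Gamma

open Gamma in
theorem gamma_stmt : GammaStmt := by
  intro G V D _ _ _ T o bar hD hC
  have ho := hD.o_eqv
  refine ⟨H G D, P D V, P D D, Y ho, inferInstance, inferInstance, inferInstance, inferInstance,
    inr, fun v => ⟨1, v⟩, fun x => ⟨1, x⟩, fun p => ⟨p.w, o p.x⟩, fun p => ⟨p.w, bar p.x⟩, sig G,
    cl ho, inr_injective, indSet, indSet, fun h p => P.ext rfl (ho _ _),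
    fun h p => P.ext rfl (hD.bar_eqv _ _), fun _ => rfl, fun _ => rfl,
    fun p => P.ext rfl (hD.inv _), fun p e => ?_, fun p => ?_, sig_eqv, fun p => ?_, ?_,
    fun y => ?_⟩
  · exact (hD.adj p.x).ne (congrArg (fun q : P D D => o q.x) e).symm
  · obtain ⟨S, h1, h2, h3⟩ := hC p.x
    refine ⟨{q | q.w = p.w ∧ q.x ∈ S}, ⟨rfl, h1⟩, fun h => h2 h.2, fun q e1 e2 => ?_⟩
    exact and_congr_right fun e => h3 q.x (fun e' => e1 (P.ext e e')) fun e' => e2 (P.ext e e')
  · rw [sig, ← map_mul, conj_mul, s_sq, mul_one, mul_inv_cancel, map_one]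
  · simp only [sig_smul]
    exact forest ho
  · obtain ⟨⟨w, v⟩, rfl⟩ := (forest ho).surj y
    obtain ⟨Φ, h1, h2⟩ := Gamma.refl ho hD v
    refine ⟨v, (MulAut.conj (inl w : H G D)).toMonoidHom.comp Φ,
      (MulAut.conj _).injective.comp h1, ?_⟩
    rw [MonoidHom.range_comp, h2, ← MulAction.stabilizer_smul_eq_stabilizer_map_conj,
      ← (forest ho).c_eqv]
    simp [smul_def]

end Pool.Agent.MP_4f4d9f_gt.Db
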