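import Pool.Agent.MP_4f4d9f_gt.Db.If

/-! The darts of a tree. -/

namespace Pool.Agent.MP_4f4d9f_gt.Db

open Finsupp

namespace TreeG

theorem acyc {V D : Type} {o : D → V} {bar : D → D} (hc : Cut o bar) (hi : ∀ x, bar (bar x) = x)
    (z : D →₀ ℤ) (h1 : mapDomain bar z = -z) (h2 : mapDomain o z = 0) : z = 0 := by
  classical
  ext x
  obtain ⟨S, s1, s2, s3⟩ := hc x
  have hne : bar x ≠ x := fun e => s2 (by rwa [e])
  let χ : V → ℤ := fun v => if v ∈ S then 1 else 0
  let φ : D → ℤ := fun y => χ (o y) - if y = x then 1 else 0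
  have k1 : φ ∘ bar = φ := funext fun y => by
    by_cases e : y = x
    · simp [φ, χ, e, s1, s2, hne]
    by_cases e' : y = bar x
    · simp [φ, χ, e', s1, s2, hne, hi]
    have : bar y ≠ x := fun h => e' (by rw [← h, hi])
    simp [φ, χ, e, this, s3 y e e']
  have k2 := linearCombination_mapDomain (R := ℤ) (v' := φ) bar z
  rw [k1, h1, map_neg] at k2
  have k3 : linearCombination ℤ φ z = linearCombination ℤ χ (mapDomain o z) - z x :=
    LinearMap.congr_fun (f := linearCombination ℤ φ)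
      (g := linearCombination ℤ χ ∘ₗ lmapDomain ℤ ℤ o - lapply x) (ch_ext fun y => by
        simp [φ, single_apply]) z
  rw [k3, h2, map_zero] at k2
  rw [Finsupp.zero_apply]
  omega

theorem conn {G V D : Type} [Group G] [MulAction G V] [MulAction G D] {T : SimpleGraph V}
    {o : D → V} {bar : D → D} (hD : Darts G T o bar) (hT : T.Connected) (a : V →₀ ℤ)
    (ha : mapDomain (fun _ => ()) a = 0) :
    ∃ z : D →₀ ℤ, mapDomain o z - mapDomain o (mapDomain bar z) = a := by
  let R : (D →₀ ℤ) →ₗ[ℤ] V →₀ ℤ := lmapDomain ℤ ℤ o - lmapDomain ℤ ℤ o ∘ₗ lmapDomain ℤ ℤ bar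
  obtain ⟨v₀⟩ := hT.nonempty
  have k1 : ∀ v w, T.Reachable v w → single v 1 - single w 1 ∈ LinearMap.range R := by
    rintro v w ⟨p⟩
    induction p with
    | nil => rw [sub_self]; exact zero_mem _
    | cons h _ ih =>
      obtain ⟨x, rfl, rfl⟩ := hD.ex _ _ h
      rw [← sub_add_sub_cancel _ (single (o (bar x)) 1)]
      exact add_mem ⟨single x 1, by simp [R]⟩ ih
  have k2 : ∀ a : V →₀ ℤ,
      a - mapDomain (fun _ => v₀) (mapDomain (fun _ => ()) a) ∈ LinearMap.range R :=
    ch_induction (by simp) (fun x y hx hy => by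
      rw [mapDomain_add, mapDomain_add, add_sub_add_comm]; exact add_mem hx hy)
      (fun x hx => by
        have := neg_mem hx
        rwa [neg_sub', ← lmapDomain_apply ℤ ℤ, ← lmapDomain_apply ℤ ℤ, ← map_neg,
          ← map_neg] at this)
      fun v => by simpa using k1 v v₀ (hT v v₀)
  have k3 := k2 a
  rwa [ha, mapDomain_zero, sub_zero] at k3

end TreeG

theorem tree_stmt : TreeStmt := by
  intro G V _ _ T hT hG
  let _ : MulAction G T.Dart :=
    { smul g x := ⟨(g • x.fst, g • x.snd), hG g _ _ x.adj⟩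
      one_smul x := SimpleGraph.Dart.ext _ _ (Prod.ext (one_smul G _) (one_smul G _))
      mul_smul g h x := SimpleGraph.Dart.ext _ _ (Prod.ext (mul_smul g h _) (mul_smul g h _)) }
  have hD : Darts G T (fun x : T.Dart => x.fst) SimpleGraph.Dart.symm :=
    ⟨fun _ _ => rfl, fun _ _ => rfl, fun _ => rfl, fun x => x.adj,
      fun v w h => ⟨⟨(v, w), h⟩, rfl, rfl⟩,
      fun _ _ h h' => SimpleGraph.Dart.ext _ _ (Prod.ext h h')⟩
  have hC : Cut (fun x : T.Dart => x.fst) SimpleGraph.Dart.symm := fun x => by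
    refine ⟨{v | (T.deleteEdges {x.edge}).Reachable x.fst v}, .refl _,
      SimpleGraph.isAcyclic_iff_forall_adj_isBridge.1 hT.isAcyclic x.adj, fun y h1 h2 => ?_⟩
    have h3 : (T.deleteEdges {x.edge}).Adj y.fst y.snd :=
      SimpleGraph.deleteEdges_adj.2 ⟨y.adj, fun h =>
        ((SimpleGraph.dart_edge_eq_iff y x).1 h).elim h1 h2⟩
    exact ⟨fun h => h.trans h3.reachable, fun h => h.trans h3.reachable.symm⟩
  exact ⟨T.Dart, inferInstance, _, _, hD, ⟨fun _ _ => rfl, hD.inv, SimpleGraph.Dart.symm_ne,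
    fun _ => hT.connected.nonempty.elim fun v => ⟨v, rfl⟩, fun _ => rfl,
    TreeG.conn hD hT.connected, TreeG.acyc hC hD.inv⟩, hC⟩

end Pool.Agent.MP_4f4d9f_gt.Db
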