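import Pool.Agent.MP_4f4d9f_gt.Db.Asm
import Pool.Agent.MP_4f4d9f_gt.Db.Atoms
import Pool.Agent.MP_4f4d9f_gt.Db.Conc
import Pool.Agent.MP_4f4d9f_gt.Db.Cone
import Pool.Agent.MP_4f4d9f_gt.Db.Dict
import Pool.Agent.MP_4f4d9f_gt.Db.Free
import Pool.Agent.MP_4f4d9f_gt.Db.Gamma
import Pool.Agent.MP_4f4d9f_gt.Db.Ind
import Pool.Agent.MP_4f4d9f_gt.Db.Lab
import Pool.Agent.MP_4f4d9f_gt.Db.Mat
import Pool.Agent.MP_4f4d9f_gt.Db.Res2
import Pool.Agent.MP_4f4d9f_gt.Db.Shap
import Pool.Agent.MP_4f4d9f_gt.Db.Trans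
import Pool.Agent.MP_4f4d9f_gt.Db.TreeG
import Pool.Agent.MP_4f4d9f_gt.Db.Up

/-! Vanishing above the middle dimension for groups with a hierarchy. -/

namespace Pool.Agent.MP_4f4d9f_gt.Db

open Sg

theorem tor_of_hier {n k : ℕ} (hk : n < 2 * (k + 1)) {G : Type} [Group G]
    (h : Hier n (k + 1) G) : Tor G k := by
  induction h with
  | leaf hC hC' hp h₁ h₂ =>
    intro G' E _ _ _ b ι hι j' hj' C _ ρ d ε R
    exact torsAt_of_resLIA hC hC' hp (MonoidHom.id _) Function.injective_id h₁ h₂ hk b ι hι j' hj' R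
  | index j hj hf _ ih => exact tor_index j hj hf ih
  | union K hK _ ih => exact tor_union K hK ih
  | tree T hT adj inv S finV finE fpV fpE _ ih =>
    exact tor_tree (conc_stmt atoms_stmt) mat_stmt trans_stmt model_stmt dict_stmt res2_stmt
      tot_stmt cone_stmt (labV_stmt free_stmt ind_stmt) (labD_stmt free_stmt ind_stmt) lift_stmt
      (up_stmt ind_stmt) tree_stmt gamma_stmt (shap_stmt res2_stmt) T hT adj inv S finV finE fpV
      fpE ih

theorem main_hier {n : ℕ} {M : Type} [TopologicalSpace M] [T2Space M]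
    {X : Type} [TopologicalSpace X] [ContractibleSpace X]
    {G : Type} [Group G] [MulAction G X] [ContinuousConstSMul G X]
    {p : X → M} (hp : IsQuotientCoveringMap p G)
    (H : Subgroup G) (hH : Folner G (G ⧸ H)) (k : ℕ) (hK : Hier n (k + 1) H)
    {E : Type} [NormedAddCommGroup E] [InnerProductSpace ℂ E]
    (b : HilbertBasis G ℂ E) (ι : G →* vnAlg b) (hι : ∀ g h, (ι g).1 (b h) = b (g * h))
    (hk : n < 2 * (k + 1)) : bettiSucc b ι X k = 0 :=
  bettiSucc_eq_zero_of_folner_tors hι hH hp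
    (tor_of_hier hk hK G E b ι hι H.subtype H.subtype_injective _ _ _ _
      (isRes_sing hp _ H.subtype_injective))

end Pool.Agent.MP_4f4d9f_gt.Db
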